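import Pool.Agent.Helper2_CN3.Stmts2
import Pool.Agent.Helper31_CON.Inv
import Pool.Agent.Helper63_CON.Spn

/-! # Assembly of squad CN3 (MP_6d18f4_al, Q2) -/

set_option autoImplicit false

noncomputable section

namespace Pool.Agent.CN3

open Pool.Agent.H25Cong Pool.Agent.CON Pool.Agent.CN2

variable {n : ℕ}

/-- reflective arithmetic lattice -/
def RefArith (G : Subgroup (V n ≃ₗ[ℝ] V n)) : Prop :=
  GenByRefl G ∧ ∃ Λ : Submodule ℤ (V n), IsIntegralLattice Λ ∧ Subgroup.Commensurable G (OLat Λ)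

/-- maximal reflective arithmetic lattice -/
def MaxRefl (G : Subgroup (V n ≃ₗ[ℝ] V n)) : Prop :=
  RefArith G ∧ ∀ G', RefArith G' → G ≤ G' → G' = G

/-- a is a basis with the Gram matrix of the orthogonal sum of a hyperbolic plane and l -/
def GramB (a : Module.Basis (Fin (n + 1)) ℝ (V n)) (l : List (Ty × ℤ)) : Prop :=
  ∀ i j, B (a i) (a j) = ent (blk hyp (gr l)) i j

/-- the lattice spanned by a basis -/
abbrev Lsp (a : Module.Basis (Fin (n + 1)) ℝ (V n)) : Submodule ℤ (V n) :=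
  Submodule.span ℤ (Set.range a)

/-- the modules of block 2 and the result of block 1 -/
structure Mods3 : Prop where
  fin : Q_FIN
  csl : Q_CSL
  nun : Q_NUN
  trv : Q_TRV
  csc : Q_CSC
  nb : Q_NB
  rk : Q_RK
  scl : Q_SCL
  one : Q_ONE
  ovr : Q_OVR
  det : Q_DET
  ex : Q_EX
  ort : ORT

lemma gr_len (l : List (Ty × ℤ)) : (gr l).length = (l.map fun T => T.1.rk).sum := by
  induction l with
  | nil => rfl
  | cons T l ih => simp [gr, blk, gr1, mat, ih]

lemma blk_len (l : List (Ty × ℤ)) (h : (l.map fun T => T.1.rk).sum + 1 = n) :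
    (blk hyp (gr l)).length = n + 1 := by
  simp only [blk, hyp, List.length_append, List.length_map, gr_len, List.length_cons,
    List.length_nil]
  omega

lemma mem_Lsp (a : Module.Basis (Fin (n + 1)) ℝ (V n)) (i : Fin (n + 1)) : a i ∈ Lsp a :=
  Submodule.subset_span ⟨i, rfl⟩

lemma isInt {a : Module.Basis (Fin (n + 1)) ℝ (V n)} {l : List (Ty × ℤ)} (ha : GramB a l) :
    IsIntegralLattice (Lsp a) :=
  ⟨a, 1, one_pos, fun i j => ⟨ent (blk hyp (gr l)) i j, by rw [ha, one_mul]⟩, rfl⟩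

lemma grL {a : Module.Basis (Fin (n + 1)) ℝ (V n)} {l : List (Ty × ℤ)}
    (hl : (l.map fun T => T.1.rk).sum + 1 = n) (ha : GramB a l) :
    GrL (Lsp a) (blk hyp (gr l)) := by
  refine ⟨blk_len l hl, fun i => if h : i < n + 1 then a ⟨i, h⟩ else 0, ?_, ?_, ?_⟩
  · intro i hi
    simp only [hi, dif_pos]
    exact mem_Lsp a _
  · intro x hx
    induction hx using Submodule.span_induction with
    | mem x hx =>
      obtain ⟨i, rfl⟩ := hx
      refine AddSubgroup.subset_closure ⟨i, i.2, ?_⟩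
      simp only [i.2, dif_pos, Fin.eta]
    | zero => exact AddSubgroup.zero_mem _
    | add x y _ _ h1 h2 => exact AddSubgroup.add_mem _ h1 h2
    | smul k x _ h => exact AddSubgroup.zsmul_mem _ h k
  · intro i hi j hj
    simp only [hi, hj, dif_pos]
    exact ha ⟨i, hi⟩ ⟨j, hj⟩

lemma intB {a : Module.Basis (Fin (n + 1)) ℝ (V n)} {l : List (Ty × ℤ)} (ha : GramB a l)
    {x y : V n} (hx : x ∈ Lsp a) (hy : y ∈ Lsp a) : ∃ k : ℤ, B x y = k := by
  obtain ⟨k, hk⟩ := H63.val (c := 1) (fun i j => ⟨ent (blk hyp (gr l)) i j, by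
    rw [ha i j, one_mul]⟩) rfl hx hy
  exact ⟨k, by rw [hk, one_mul]⟩

lemma even_of_NB {L : Submodule ℤ (V n)} (hL : IsLat L)
    (hint : ∀ x ∈ L, ∀ y ∈ L, ∃ k : ℤ, B x y = k) {c : ℕ → V n} (hc : NB L c) : EvenLat L := by
  refine ⟨hL, hint, fun x hx => ?_⟩
  have h1 : ∀ x ∈ AddSubgroup.closure (c '' {i | i < n + 1}), x ∈ L ∧ ∃ k : ℤ, B x x = 2 * k := by
    intro x hx
    induction hx using AddSubgroup.closure_induction with
    | mem x hx =>
      obtain ⟨i, hi, rfl⟩ := hx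
      exact ⟨hc.1 i hi, 1, by rw [hc.2.2.1 i hi]; norm_num⟩
    | zero => exact ⟨L.zero_mem, 0, by simp⟩
    | add x y _ _ h1 h2 =>
      obtain ⟨h1, k1, e1⟩ := h1
      obtain ⟨h2, k2, e2⟩ := h2
      obtain ⟨k, e⟩ := hint x h1 y h2
      refine ⟨L.add_mem h1 h2, k1 + k2 + k, ?_⟩
      rw [B_add_left, B_add_right, B_add_right, B_comm y x, e1, e2, e]
      push_cast
      ring
    | neg x _ h1 =>
      obtain ⟨h1, k1, e1⟩ := h1
      exact ⟨L.neg_mem h1, k1, by rw [B_neg_left, B_neg_right, neg_neg, e1]⟩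
  exact (h1 x (hc.2.1 x hx)).2

/-- reflections which map L into itself preserve L -/
lemma refL_le (L : Submodule ℤ (V n)) : RefL L ≤ OLat L := by
  refine (Subgroup.closure_le _).2 ?_
  rintro g ⟨⟨r, hr, hg⟩, hgL⟩
  have h1 : g = S r := by
    ext1 x
    rw [hg, S_apply]
  subst h1
  refine ⟨S_isom r, fun x => ⟨fun h => ?_, hgL x⟩⟩
  have := hgL _ h
  rwa [S_S] at this

lemma refL_gen (L : Submodule ℤ (V n)) : GenByRefl (RefL L) := by
  refine le_antisymm ((Subgroup.closure_le _).2 fun g hg => ?_)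
    ((Subgroup.closure_le _).2 fun g hg => hg.1)
  exact Subgroup.subset_closure ⟨Subgroup.subset_closure hg, hg.1⟩

lemma refL_isom {L : Submodule ℤ (V n)} {g : V n ≃ₗ[ℝ] V n} (hg : g ∈ RefL L) : Isom g :=
  (refL_le L hg).1

lemma refL_inv (L : Submodule ℤ (V n)) : Inv (RefL L) L :=
  fun _ hg x hx => ((refL_le L hg).2 x).2 hx

/-- reflections in norm 2 vectors -/
lemma S2_mem {L : Submodule ℤ (V n)} (hint : ∀ x ∈ L, ∀ y ∈ L, ∃ k : ℤ, B x y = k) {r : V n}
    (hr : r ∈ L) (hr2 : B r r = 2) : S r ∈ RefL L := by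
  refine Subgroup.subset_closure ⟨⟨r, by rw [hr2]; norm_num, fun x => S_apply r x⟩, fun x hx => ?_⟩
  obtain ⟨k, hk⟩ := hint x hx r hr
  rw [S_apply, hr2, hk]
  have : (2 * (k : ℝ) / 2) = k := by ring
  rw [this, Int.cast_smul_eq_zsmul ℝ]
  exact L.sub_mem hx (L.smul_mem k hr)

/-- reflections in roots of norm 4 -/
lemma S4_mem {L : Submodule ℤ (V n)} {r : V n} (hr : r ∈ L) (hr4 : B r r = 4)
    (hroot : ∀ y ∈ L, ∃ k : ℤ, B r y = 2 * k) : S r ∈ RefL L := by
  refine Subgroup.subset_closure ⟨⟨r, by rw [hr4]; norm_num, fun x => S_apply r x⟩, fun x hx => ?_⟩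
  obtain ⟨k, hk⟩ := hroot x hx
  rw [S_apply, hr4, B_comm, hk]
  have : (2 * (2 * (k : ℝ)) / 4) = k := by ring
  rw [this, Int.cast_smul_eq_zsmul ℝ]
  exact L.sub_mem hx (L.smul_mem k hr)

/-- an even lattice with the same kind of Gram matrix which is invariant under the reflections
of L is equal to L -/
theorem max_lat (m : Mods3) {l l' : List (Ty × ℤ)} (hn : 1 ≤ n) (hl : l ∈ reps) (hl' : l' ∈ reps)
    (hs : (l.map fun T => T.1.rk).sum + 1 = n) (hs' : (l'.map fun T => T.1.rk).sum + 1 = n)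
    {L L' : Submodule ℤ (V n)} (hL : EvenLat L) (hL' : EvenLat L')
    (hG : GrL L (blk hyp (gr l))) (hG' : GrL L' (blk hyp (gr l')))
    (hinv : Inv (RefL L) L') : L' = L := by
  obtain ⟨r, hr⟩ := m.nb n L l hl hs hG
  obtain ⟨c, h, hc, hch, hcL, hcB⟩ := m.scl n L L' r hn hL.lat hL' hr fun i hi x hx =>
    hinv _ (S2_mem hL.int (hr.1 i hi) (hr.2.2.1 i hi)) x hx
  obtain ⟨k, hk, hk'⟩ := m.rk n L l hl hs hG
  obtain ⟨k2, hk2, hk2'⟩ := m.rk n L' l' hl' hs' hG'
  have hc1 := m.one n L L' c h k k2 hL hL' hc hch hcL hcB hk' hk2' (by omega)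
  subst hc1
  refine m.ovr n L L' l hl hs hG hL hL' (fun x hx => ?_) (fun x hx y hy => ?_) ?_
  · have := hcL x hx
    rwa [one_smul] at this
  · obtain ⟨k, hk⟩ := hcB x hx y hy
    exact ⟨k, by rw [hk, one_mul]⟩
  · intro r hr hr4 hroot x hx
    exact hinv _ (S4_mem hr hr4 hroot) x hx

/-- the properties of one of the 13 groups -/
theorem refL_all (m2 : Mods2) (m : Mods3) (hn : 10 ≤ n) {l : List (Ty × ℤ)} (hl : l ∈ reps)
    (hs : (l.map fun T => T.1.rk).sum + 1 = n) {a : Module.Basis (Fin (n + 1)) ℝ (V n)}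
    (ha : GramB a l) :
    EvenLat (Lsp a) ∧ MaxRefl (RefL (Lsp a)) ∧ ¬ Uniform (RefL (Lsp a)) ∧
      IsCongruence (RefL (Lsp a)) := by
  have hlat : IsLat (Lsp a) := ⟨a, rfl⟩
  have hG := grL hs ha
  obtain ⟨r, hr⟩ := m.nb n (Lsp a) l hl hs hG
  have hint : ∀ x ∈ Lsp a, ∀ y ∈ Lsp a, ∃ k : ℤ, B x y = k := fun x hx y hy => intB ha hx hy
  have hL := even_of_NB hlat hint hr
  have hI := isInt ha
  obtain ⟨N, hN, hcong⟩ := m.ort n l hl hs a ha
  have hcom : Subgroup.Commensurable (RefL (Lsp a)) (OLat (Lsp a)) :=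
    m.fin n _ _ N hlat hN (refL_le _) hcong
  have hiso : ∃ e ∈ Lsp a, e ≠ 0 ∧ B e e = 0 := by
    refine ⟨a 0, mem_Lsp a 0, a.ne_zero 0, ?_⟩
    rw [ha 0 0]
    have : ent (blk hyp (gr l)) ((0 : Fin (n + 1)) : ℕ) ((0 : Fin (n + 1)) : ℕ) = 0 := by
      simp [ent, blk, hyp]
    rw [this]
    norm_num
  refine ⟨hL, ⟨⟨refL_gen _, Lsp a, hI, hcom⟩, ?_⟩, ?_, ⟨Lsp a, N, hI, hN, hcom, hcong⟩⟩
  · rintro G' ⟨hgen, Λ1, hΛ1, hcom1⟩ hle
    have hcong' : CongSub (Lsp a) N G' := fun g hg hmod => by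
      obtain ⟨h, hh, hs⟩ := hcong g hg hmod
      exact ⟨h, hle hh, hs⟩
    have hcsc := m.csc n (Lsp a) Λ1 (by omega) hI hΛ1 hiso
      (m.trv n G' (Lsp a) Λ1 N (by omega) hI hΛ1 hN hcong' hcom1)
    have hlat1 : IsLat Λ1 := by
      obtain ⟨b, -, -, -, h⟩ := hΛ1
      exact ⟨b, h⟩
    have hcom2 : Subgroup.Commensurable G' (OLat (Lsp a)) :=
      hcom1.trans (m.csl n _ _ hlat hlat1 hcsc).symm
    obtain ⟨L', hL', hinv, -, l', hl', hs', hG'⟩ := fin2 m2 hn G' hgen (Lsp a) N hI hiso hN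
      hcom2 hcong'
    have hLL : L' = Lsp a := max_lat m (by omega) hl hl' hs hs' hL hL' hG hG'
      fun g hg x hx => hinv g (hle hg) x hx
    refine le_antisymm ?_ hle
    rw [hgen]
    refine (Subgroup.closure_le _).2 fun g hg => Subgroup.subset_closure ⟨hg.2, fun x hx => ?_⟩
    rw [← hLL] at hx ⊢
    exact hinv g hg.1 x hx
  · exact m.nun n _ (Lsp a) hlat (refL_inv _) (fun g hg => refL_isom hg) hiso

/-- the classification -/
theorem main_iff (m2 : Mods2) (m : Mods3) (hn : 10 ≤ n) (G : Subgroup (V n ≃ₗ[ℝ] V n)) :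
    (MaxRefl G ∧ ¬ Uniform G ∧ IsCongruence G) ↔
      ∃ l ∈ reps, (l.map fun T => T.1.rk).sum + 1 = n ∧
        ∃ a : Module.Basis (Fin (n + 1)) ℝ (V n), GramB a l ∧ G = RefL (Lsp a) := by
  constructor
  · rintro ⟨hmax, hnu, hc⟩
    obtain ⟨l, hl, hs, a, ha, hle⟩ := final2 m2 hn G hmax.1.1 hnu hc
    refine ⟨l, hl, hs, a, ha, ?_⟩
    exact (hmax.2 _ (refL_all m2 m hn hl hs ha).2.1.1 hle).symm
  · rintro ⟨l, hl, hs, a, ha, rfl⟩
    exact (refL_all m2 m hn hl hs ha).2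

/-- the 13 groups are pairwise not conjugate -/
theorem main_ne (m2 : Mods2) (m : Mods3) (hn : 10 ≤ n) {l l' : List (Ty × ℤ)} (hl : l ∈ reps)
    (hl' : l' ∈ reps) (hs : (l.map fun T => T.1.rk).sum + 1 = n)
    (hs' : (l'.map fun T => T.1.rk).sum + 1 = n) {a a' : Module.Basis (Fin (n + 1)) ℝ (V n)}
    (ha : GramB a l) (ha' : GramB a' l') (h : RefL (Lsp a) = RefL (Lsp a')) : l = l' := by
  have hL := (refL_all m2 m hn hl hs ha).1
  have hL' := (refL_all m2 m hn hl' hs' ha').1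
  have hLL : Lsp a' = Lsp a := max_lat m (by omega) hl hl' hs hs' hL hL' (grL hs ha)
    (grL hs' ha') (by rw [h]; exact refL_inv _)
  have hG' := grL hs' ha'
  rw [hLL] at hG'
  exact m.det n (Lsp a) l hl l' hl' hs hs' hL.lat (grL hs ha) hG'

/-- two bases with the same Gram matrix differ by an isometry, which conjugates the groups -/
theorem main_conj {l : List (Ty × ℤ)} {a a' : Module.Basis (Fin (n + 1)) ℝ (V n)}
    (ha : GramB a l) (ha' : GramB a' l) :
    ∃ g : V n ≃ₗ[ℝ] V n, Isom g ∧ (∀ i, g (a i) = a' i) ∧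
      RefL (Lsp a') = (RefL (Lsp a)).map (MulAut.conj g).toMonoidHom := by
  set g : V n ≃ₗ[ℝ] V n := a.equiv a' (Equiv.refl _) with hg
  have hga : ∀ i, g (a i) = a' i := fun i => by rw [hg]; simp
  have hgi : Isom g := by
    have h1 : ∀ i, ∀ y, B (a' i) (g y) = B (a i) y := by
      intro i y
      rw [← a.sum_repr y, map_sum, B_sum_right, B_sum_right]
      refine Finset.sum_congr rfl fun j _ => ?_
      rw [map_smul, B_smul_right, B_smul_right, hga, ha', ha]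
    intro x y
    rw [← a.sum_repr x, map_sum, B_sum_left, B_sum_left]
    refine Finset.sum_congr rfl fun i _ => ?_
    rw [map_smul, B_smul_left, B_smul_left, hga, h1]
  have hLL : ∀ x, g x ∈ Lsp a' ↔ x ∈ Lsp a := by
    have h1 : ∀ x ∈ Lsp a, g x ∈ Lsp a' := by
      intro x hx
      induction hx using Submodule.span_induction with
      | mem x hx =>
        obtain ⟨i, rfl⟩ := hx
        rw [hga]
        exact mem_Lsp a' i
      | zero => rw [map_zero]; exact Submodule.zero_mem _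
      | add x y _ _ h1 h2 => rw [map_add]; exact Submodule.add_mem _ h1 h2
      | smul k x _ h => rw [map_zsmul]; exact Submodule.smul_mem _ _ h
    have h2 : ∀ x ∈ Lsp a', g⁻¹ x ∈ Lsp a := by
      intro x hx
      induction hx using Submodule.span_induction with
      | mem x hx =>
        obtain ⟨i, rfl⟩ := hx
        rw [← hga, inv_ap]
        exact mem_Lsp a i
      | zero => rw [map_zero]; exact Submodule.zero_mem _
      | add x y _ _ h1 h2 => rw [map_add]; exact Submodule.add_mem _ h1 h2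
      | smul k x _ h => rw [map_zsmul]; exact Submodule.smul_mem _ _ h
    intro x
    refine ⟨fun h => ?_, h1 x⟩
    have := h2 _ h
    rwa [inv_ap] at this
  refine ⟨g, hgi, hga, ?_⟩
  have hconj : ∀ s : V n ≃ₗ[ℝ] V n, IsReflection s → IsReflection (g * s * g⁻¹) := by
    rintro s ⟨r, hr, hs⟩
    refine ⟨g r, by rw [hgi]; exact hr, fun x => ?_⟩
    have h1 : s = S r := by
      ext1 x
      rw [hs, S_apply]
    rw [h1, S_conj hgi, S_apply]
  unfold RefL
  rw [MonoidHom.map_closure]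
  congr 1
  ext s
  constructor
  · rintro ⟨hs, hs'⟩
    refine ⟨g⁻¹ * s * g, ⟨?_, fun x hx => ?_⟩, ?_⟩
    · obtain ⟨r, hr, hsr⟩ := hs
      have h1 : s = S r := by
        ext1 x
        rw [hsr, S_apply]
      have h2 := S_conj hgi.inv r
      rw [inv_inv] at h2
      rw [h1, h2]
      exact ⟨g⁻¹ r, by rw [hgi.inv]; exact hr, fun x => S_apply _ _⟩
    · rw [mul_ap, mul_ap, ← hLL, ap_inv]
      exact hs' _ ((hLL x).2 hx)
    · show g * (g⁻¹ * s * g) * g⁻¹ = s
      group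
  · rintro ⟨t, ⟨ht, ht'⟩, rfl⟩
    refine ⟨hconj t ht, fun x hx => ?_⟩
    show (g * t * g⁻¹) x ∈ Lsp a'
    rw [mul_ap, mul_ap, hLL]
    refine ht' _ ?_
    rw [← hLL, ap_inv]
    exact hx

end Pool.Agent.CN3

end
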