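import Pool.Agent.Helper2_CN3.Stmts
import Pool.Agent.Helper63_CON.Rat

/-! # Module Q_CSC (squad CN3, MP_6d18f4_al) -/

set_option autoImplicit false

noncomputable section

namespace Pool.Agent.CN3.H2

open Pool.Agent.H25Cong Pool.Agent.CON Pool.Agent.CN2 Pool.Agent.CN3

variable {n : ℕ}

/-- a basis contained in a lattice spans a sublattice of finite exponent -/
theorem back {Λ' : Submodule ℤ (V n)} {b' : Module.Basis (Fin (n + 1)) ℝ (V n)}
    (hΛ' : Λ' = Submodule.span ℤ (Set.range b')) (u : Module.Basis (Fin (n + 1)) ℝ (V n))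
    (hu : ∀ i, u i ∈ Λ') :
    ∃ D : ℕ, 0 < D ∧ ∀ x ∈ Λ', (D : ℝ) • x ∈ Submodule.span ℤ (Set.range u) := by
  classical
  have h1 : ∀ i j, ∃ m : ℤ, b'.repr (u j) i = m := by
    intro i j
    have hy' : u j ∈ Submodule.span ℤ (Set.range b') := by rw [← hΛ']; exact hu j
    obtain ⟨m, hm⟩ := (b'.mem_span_iff_repr_mem ℤ (u j)).mp hy' i
    exact ⟨m, by rw [← hm]; rfl⟩
  choose m hm using h1
  set M : Matrix (Fin (n + 1)) (Fin (n + 1)) ℤ := Matrix.of m with hM
  have hMt : b'.toMatrix u = M.map (Int.castRingHom ℝ) := by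
    ext i j
    rw [Module.Basis.toMatrix_apply, hm]
    rfl
  have hdet : M.det ≠ 0 := by
    intro h0
    have h2 : (b'.toMatrix u).det = 0 := by
      rw [hMt, ← RingHom.mapMatrix_apply, ← RingHom.map_det, h0]
      simp
    have h3 := congrArg Matrix.det (b'.toMatrix_mul_toMatrix_flip u)
    rw [Matrix.det_mul, h2, Matrix.det_one, zero_mul] at h3
    exact zero_ne_one h3
  have hexp : ∀ j, u j = ∑ i, (M i j : ℝ) • b' i := by
    intro j
    conv_lhs => rw [← b'.sum_repr (u j)]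
    exact Finset.sum_congr rfl fun i _ => by rw [hm]; rfl
  have hadj : ∀ k, (M.det : ℝ) • b' k = ∑ j, (M.adjugate j k : ℝ) • u j := by
    intro k
    have h2 : ∀ i, ∑ j, M i j * M.adjugate j k = if i = k then M.det else 0 := by
      intro i
      have := congrFun (congrFun (Matrix.mul_adjugate M) i) k
      rw [Matrix.mul_apply] at this
      rw [this, Matrix.smul_apply, Matrix.one_apply]
      simp
    calc (M.det : ℝ) • b' k = ∑ i, ((if i = k then M.det else 0 : ℤ) : ℝ) • b' i := by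
          rw [Finset.sum_eq_single k]
          · simp
          · intro i _ hi
            simp [hi]
          · simp
      _ = ∑ i, ∑ j, ((M i j : ℝ) * (M.adjugate j k : ℝ)) • b' i := by
          refine Finset.sum_congr rfl fun i _ => ?_
          rw [← h2 i, ← Finset.sum_smul]
          push_cast
          rfl
      _ = ∑ j, (M.adjugate j k : ℝ) • u j := by
          rw [Finset.sum_comm]
          refine Finset.sum_congr rfl fun j _ => ?_
          rw [hexp j, Finset.smul_sum]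
          refine Finset.sum_congr rfl fun i _ => ?_
          rw [smul_smul, mul_comm]
  have hcom := H63.common hΛ' LinearMap.id (Submodule.span ℤ (Set.range u)).toAddSubgroup (by
    intro k
    refine ⟨M.det.natAbs, Int.natAbs_pos.2 hdet, ?_⟩
    have h3 : (M.det : ℝ) • b' k ∈ Submodule.span ℤ (Set.range u) := by
      rw [hadj k]
      refine Submodule.sum_mem _ fun j _ => ?_
      rw [Int.cast_smul_eq_zsmul ℝ]
      exact Submodule.smul_mem _ _ (Submodule.subset_span ⟨j, rfl⟩)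
    show ((M.det.natAbs : ℕ) : ℝ) • b' k ∈ Submodule.span ℤ (Set.range u)
    rcases Int.natAbs_eq M.det with h | h
    · have h4 : ((M.det.natAbs : ℕ) : ℝ) = (M.det : ℝ) := by
        conv_rhs => rw [h]
        simp
      rw [h4]; exact h3
    · have h4 : ((M.det.natAbs : ℕ) : ℝ) = -(M.det : ℝ) := by
        conv_rhs => rw [h]
        simp
      rw [h4, neg_smul]; exact Submodule.neg_mem _ h3)
  exact hcom

theorem q_csc : Q_CSC := by
  rintro n Λ Λ' hn hΛi hΛi' hex hS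
  obtain ⟨D₀, hD₀, hspn⟩ := H63.a_spn n Λ hΛi hex
  obtain ⟨b, c, hc, hb, hΛ⟩ := hΛi
  obtain ⟨b', c', hc', hb', hΛ'⟩ := hΛi'
  obtain ⟨e0, he0Λ, he0, hee0⟩ := hex
  have hval : ∀ x ∈ Λ, ∀ y ∈ Λ, ∃ k : ℤ, B x y = c * k := fun x hx y hy =>
    H63.val hb hΛ hx hy
  have hval' : ∀ x ∈ Λ', ∀ y ∈ Λ', ∃ k : ℤ, B x y = c' * k := fun x hx y hy =>
    H63.val hb' hΛ' hx hy
  have hbΛ : ∀ i, b i ∈ Λ := fun i => by rw [hΛ]; exact Submodule.subset_span ⟨i, rfl⟩
  obtain ⟨c0, hc0, hc0Λ⟩ := hS e0 he0Λ he0 hee0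
  -- products of two scalars
  have prod : ∀ e ∈ Λ, ∀ g ∈ Λ, B e g ≠ 0 → ∀ ce cg : ℝ, ce • e ∈ Λ' → cg • g ∈ Λ' →
      ∃ q : ℚ, ce * cg = q * (c' / c) := by
    intro e he g hg heg ce cg h1 h2
    obtain ⟨k, hk⟩ := hval' _ h1 _ h2
    obtain ⟨k', hk'⟩ := hval _ he _ hg
    rw [B_smul_left, B_smul_right] at hk
    refine ⟨(k : ℚ) / k', ?_⟩
    have h3 : (k' : ℝ) ≠ 0 := by
      intro h
      apply heg
      rw [hk', h, mul_zero]
    rw [hk'] at hk
    push_cast
    field_simp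
    linear_combination hk
  -- a third isotropic vector
  have third : ∀ e ∈ Λ, e ≠ 0 → B e e = 0 → ∃ g ∈ Λ, B g g = 0 ∧ B e g ≠ 0 ∧ B e0 g ≠ 0 := by
    intro e he hene hee
    by_contra hcon
    push Not at hcon
    have h1 : ∀ g ∈ AddSubgroup.closure {e : V n | e ∈ Λ ∧ B e e = 0},
        g ∈ Submodule.span ℝ {e, e0} := by
      intro g hg
      induction hg using AddSubgroup.closure_induction with
      | mem g hg =>
        by_cases h : B e g = 0
        · obtain ⟨a, rfl⟩ := H63.prop_iso hene hee hg.2 h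
          exact Submodule.smul_mem _ _ (Submodule.subset_span (by simp))
        · obtain ⟨a, rfl⟩ := H63.prop_iso he0 hee0 hg.2 (hcon g hg.1 hg.2 h)
          exact Submodule.smul_mem _ _ (Submodule.subset_span (by simp))
      | zero => exact Submodule.zero_mem _
      | add x y _ _ h1 h2 => exact Submodule.add_mem _ h1 h2
      | neg x _ h1 => exact Submodule.neg_mem _ h1
    have h2 : ∀ i, b i ∈ Submodule.span ℝ {e, e0} := by
      intro i
      have h3 := h1 _ (hspn (b i) (hbΛ i))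
      have h4 := Submodule.smul_mem (Submodule.span ℝ {e, e0}) ((D₀ : ℝ)⁻¹) h3
      rwa [smul_smul, inv_mul_cancel₀ (by positivity), one_smul] at h4
    have h3 : Submodule.span ℝ {e, e0} = ⊤ := by
      rw [eq_top_iff, ← b.span_eq, Submodule.span_le]
      rintro _ ⟨i, rfl⟩
      exact h2 i
    have h4 : Module.finrank ℝ (Submodule.span ℝ ({e, e0} : Set (V n))) ≤ 2 := by
      classical
      have h5 := finrank_span_finset_le_card (R := ℝ) ({e, e0} : Finset (V n))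
      have h6 : (({e, e0} : Finset (V n)) : Set (V n)) = {e, e0} := by push_cast; rfl
      rw [Set.finrank, h6] at h5
      exact h5.trans Finset.card_le_two
    rw [h3, finrank_top, Module.finrank_fin_fun] at h4
    omega
  have hcc : c' / c ≠ 0 := (div_pos hc' hc).ne'
  -- multiples of the isotropic vectors
  have hiso : ∀ e, e ∈ Λ → B e e = 0 → ∃ D : ℕ, 0 < D ∧ (D : ℝ) • (c0 • e) ∈ Λ' := by
    intro e he hee
    by_cases hene : e = 0
    · exact ⟨1, one_pos, by rw [hene]; simp⟩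
    obtain ⟨ce, hce, hceΛ⟩ := hS e he hene hee
    obtain ⟨g, hg, hgg, heg, he0g⟩ := third e he hene hee
    have hgne : g ≠ 0 := by rintro rfl; apply heg; simp
    obtain ⟨cg, hcg, hcgΛ⟩ := hS g hg hgne hgg
    obtain ⟨q1, hq1⟩ := prod e he g hg heg ce cg hceΛ hcgΛ
    obtain ⟨q2, hq2⟩ := prod e0 he0Λ g hg he0g c0 cg hc0Λ hcgΛ
    have hq10 : (q1 : ℝ) ≠ 0 := by
      intro h
      rw [h, zero_mul] at hq1
      exact mul_ne_zero hce hcg hq1
    have hq : c0 = ((q2 / q1 : ℚ) : ℝ) * ce := by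
      push_cast
      have h3 : (c0 * q1 - q2 * ce) * (cg * (c' / c)) = 0 := by
        linear_combination (q1 : ℝ) * (c' / c) * hq2 - (q2 : ℝ) * (c' / c) * hq1
      have h4 := (mul_eq_zero.mp h3).resolve_right (mul_ne_zero hcg hcc)
      field_simp
      linarith
    set q := q2 / q1 with hqd
    refine ⟨q.den, q.pos, ?_⟩
    have h7 : (q.den : ℝ) • (c0 • e) = q.num • (ce • e) := by
      rw [← Int.cast_smul_eq_zsmul ℝ, smul_smul, smul_smul]
      congr 1
      have h5 : (q : ℝ) = q.num / q.den := by exact_mod_cast (Rat.num_div_den q).symm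
      have h6 : (q.den : ℝ) ≠ 0 := by exact_mod_cast q.pos.ne'
      rw [hq, h5]
      field_simp
    rw [h7]
    exact Λ'.smul_mem _ hceΛ
  have hcl : ∀ y ∈ AddSubgroup.closure {e : V n | e ∈ Λ ∧ B e e = 0},
      ∃ D : ℕ, 0 < D ∧ (D : ℝ) • (c0 • y) ∈ Λ' := by
    intro y hy
    induction hy using AddSubgroup.closure_induction with
    | mem y hy => exact hiso y hy.1 hy.2
    | zero => exact ⟨1, one_pos, by simp⟩
    | add y z _ _ h1 h2 =>
      obtain ⟨D1, hD1, h1⟩ := h1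
      obtain ⟨D2, hD2, h2⟩ := h2
      refine ⟨D1 * D2, Nat.mul_pos hD1 hD2, ?_⟩
      have h3 : ((D1 * D2 : ℕ) : ℝ) • (c0 • (y + z)) =
          D2 • ((D1 : ℝ) • (c0 • y)) + D1 • ((D2 : ℝ) • (c0 • z)) := by
        rw [← Nat.cast_smul_eq_nsmul ℝ, ← Nat.cast_smul_eq_nsmul ℝ, smul_smul, smul_smul,
          smul_smul, smul_smul, smul_smul, smul_add]
        push_cast
        congr 2 <;> ring
      rw [h3]
      exact Λ'.add_mem (Λ'.nsmul_mem h1 _) (Λ'.nsmul_mem h2 _)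
    | neg y _ h1 =>
      obtain ⟨D1, hD1, h1⟩ := h1
      exact ⟨D1, hD1, by rw [smul_neg, smul_neg]; exact Λ'.neg_mem h1⟩
  obtain ⟨D1, hD1, hD1'⟩ := H63.common hΛ (c0 • LinearMap.id) Λ'.toAddSubgroup (by
    intro i
    obtain ⟨D, hD, h⟩ := hcl _ (hspn (b i) (hbΛ i))
    refine ⟨D * D₀, Nat.mul_pos hD hD₀, ?_⟩
    show ((D * D₀ : ℕ) : ℝ) • (c0 • b i) ∈ Λ'
    have h3 : ((D * D₀ : ℕ) : ℝ) • (c0 • b i) = (D : ℝ) • (c0 • ((D₀ : ℝ) • b i)) := by
      rw [smul_smul, smul_smul, smul_smul]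
      push_cast
      congr 1
      ring
    rw [h3]
    exact h)
  have hD1'' : ∀ x ∈ Λ, (D1 : ℝ) • (c0 • x) ∈ Λ' := hD1'
  have ht0 : 0 < |c0| := abs_pos.2 hc0
  have hD1R : (0 : ℝ) < D1 := by exact_mod_cast hD1
  have hin : ∀ x ∈ Λ, ((D1 : ℝ) * |c0|) • x ∈ Λ' := by
    intro x hx
    have h := hD1'' x hx
    rw [smul_smul] at h
    rcases abs_choice c0 with h2 | h2
    · rw [h2]; exact h
    · rw [h2, mul_neg, neg_smul]; exact Λ'.neg_mem h
  have hne : (D1 : ℝ) * |c0| ≠ 0 := (mul_pos hD1R ht0).ne'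
  set u : Module.Basis (Fin (n + 1)) ℝ (V n) :=
    b.map (LinearEquiv.smulOfNeZero ℝ (V n) ((D1 : ℝ) * |c0|) hne) with hu
  have hui : ∀ i, u i = ((D1 : ℝ) * |c0|) • b i := fun i => by rw [hu]; rfl
  obtain ⟨D2, hD2, hD2'⟩ := back hΛ' u (fun i => by rw [hui]; exact hin _ (hbΛ i))
  have hD2R : (0 : ℝ) < D2 := by exact_mod_cast hD2
  have hspan : ∀ w ∈ Submodule.span ℤ (Set.range u), ∃ y ∈ Λ, w = |c0| • y := by
    intro w hw
    induction hw using Submodule.span_induction with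
    | mem w hw =>
      obtain ⟨i, rfl⟩ := hw
      refine ⟨D1 • b i, Λ.nsmul_mem (hbΛ i) _, ?_⟩
      rw [hui, ← Nat.cast_smul_eq_nsmul ℝ, smul_smul, mul_comm]
    | zero => exact ⟨0, Λ.zero_mem, by simp⟩
    | add x y _ _ h1 h2 =>
      obtain ⟨y1, hy1, rfl⟩ := h1
      obtain ⟨y2, hy2, rfl⟩ := h2
      exact ⟨y1 + y2, Λ.add_mem hy1 hy2, by rw [smul_add]⟩
    | smul a x _ h1 =>
      obtain ⟨y1, hy1, rfl⟩ := h1
      exact ⟨a • y1, Λ.smul_mem _ hy1, by rw [smul_comm]⟩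
  refine ⟨|c0|, D1 * D2, ht0, Nat.mul_pos hD1 hD2, ?_, ?_⟩
  · intro x hx
    have h3 : (((D1 * D2 : ℕ) : ℝ) * |c0|) • x = D2 • (((D1 : ℝ) * |c0|) • x) := by
      rw [← Nat.cast_smul_eq_nsmul ℝ, smul_smul]
      push_cast
      congr 1
      ring
    rw [h3]
    exact Λ'.nsmul_mem (hin x hx) _
  · intro x hx
    obtain ⟨y, hy, hxy⟩ := hspan _ (hD2' x hx)
    refine ⟨D1 • y, Λ.nsmul_mem hy _, ?_⟩
    have h3 : ((D1 * D2 : ℕ) : ℝ) • x = (D1 : ℝ) • ((D2 : ℝ) • x) := by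
      rw [smul_smul]
      push_cast
      rfl
    rw [h3, hxy, ← Nat.cast_smul_eq_nsmul ℝ, smul_comm]

end Pool.Agent.CN3.H2

end
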