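import Pool.Agent.Helper2_CN3.Stmts
import Pool.Agent.Helper39_CON.Cng

/-! # Modules Q_FIN, Q_CSL (squad CN3, MP_6d18f4_al) -/

set_option autoImplicit false

noncomputable section

namespace Pool.Agent.CN3.H2

open Pool.Agent.H25Cong Pool.Agent.CON Pool.Agent.CN2 Pool.Agent.CN3

variable {n : ℕ}

/-- a criterion for finite index -/
theorem relIndex_ne {G α : Type*} [Group G] [Finite α] (H K : Subgroup G) (f : G → α)
    (h : ∀ a ∈ K, ∀ b ∈ K, f a = f b → a⁻¹ * b ∈ H) : H.relIndex K ≠ 0 := by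
  classical
  have hfin : Finite (K ⧸ H.subgroupOf K) := by
    refine Finite.of_injective (fun q : K ⧸ H.subgroupOf K => f (q.out : K)) ?_
    intro q1 q2 h12
    have h3 : ((q1.out : K)⁻¹ * (q2.out : K) : K) ∈ H.subgroupOf K := by
      rw [Subgroup.mem_subgroupOf]
      exact h _ (q1.out).2 _ (q2.out).2 h12
    rw [← QuotientGroup.eq, QuotientGroup.out_eq', QuotientGroup.out_eq'] at h3
    exact h3
  haveI : (H.subgroupOf K).FiniteIndex := Subgroup.finiteIndex_of_finite_quotient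
  exact (inferInstance : (H.subgroupOf K).FiniteIndex).index_ne_zero

/-- minus the identity -/
def mi (n : ℕ) : V n ≃ₗ[ℝ] V n := LinearEquiv.neg ℝ

lemma mi_ap (x : V n) : mi n x = -x := rfl

lemma mi_mul (g : V n ≃ₗ[ℝ] V n) : mi n * g = g * mi n := by
  ext1 x
  rw [mul_ap, mul_ap, mi_ap, mi_ap, map_neg]

lemma mi_mi : mi n * mi n = 1 := by
  ext1 x
  rw [mul_ap, mi_ap, mi_ap, neg_neg, one_ap]

lemma mi_inv : (mi n)⁻¹ = mi n := by
  rw [inv_eq_iff_mul_eq_one]; exact mi_mi

/-- the group generated by W and minus the identity -/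
def PM (W : Subgroup (V n ≃ₗ[ℝ] V n)) : Subgroup (V n ≃ₗ[ℝ] V n) where
  carrier := {g | g ∈ W ∨ mi n * g ∈ W}
  one_mem' := Or.inl W.one_mem
  mul_mem' := by
    rintro g h (hg | hg) (hh | hh)
    · exact Or.inl (W.mul_mem hg hh)
    · right
      have : mi n * (g * h) = g * (mi n * h) := by rw [← mul_assoc, mi_mul, mul_assoc]
      rw [this]
      exact W.mul_mem hg hh
    · right
      rw [← mul_assoc]
      exact W.mul_mem hg hh
    · left
      have : g * h = (mi n * g) * (mi n * h) := by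
        rw [mi_mul g, mul_assoc, ← mul_assoc (mi n) (mi n), mi_mi, one_mul]
      rw [this]
      exact W.mul_mem hg hh
  inv_mem' := by
    rintro g (hg | hg)
    · exact Or.inl (W.inv_mem hg)
    · right
      have : mi n * g⁻¹ = (mi n * g)⁻¹ := by rw [mul_inv_rev, mi_inv, mi_mul]
      rw [this]
      exact W.inv_mem hg

lemma mem_PM {W : Subgroup (V n ≃ₗ[ℝ] V n)} {g : V n ≃ₗ[ℝ] V n} :
    g ∈ PM W ↔ g ∈ W ∨ mi n * g ∈ W := Iff.rfl

theorem relIndex_PM (W : Subgroup (V n ≃ₗ[ℝ] V n)) : W.relIndex (PM W) ≠ 0 := by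
  classical
  refine relIndex_ne W (PM W) (fun g => decide (g ∈ W)) fun a ha b hb hab => ?_
  have hab' : a ∈ W ↔ b ∈ W := by simpa using hab
  rw [mem_PM] at ha hb
  by_cases h : a ∈ W
  · exact W.mul_mem (W.inv_mem h) (hab'.1 h)
  · have h1 := ha.resolve_left h
    have h2 := hb.resolve_left fun h' => h (hab'.2 h')
    have h3 : a⁻¹ * b = (mi n * a)⁻¹ * (mi n * b) := by
      rw [mul_inv_rev, mi_inv, mul_assoc, ← mul_assoc (mi n) (mi n), mi_mi, one_mul]
    rw [h3]
    exact W.mul_mem (W.inv_mem h1) h2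

theorem q_fin (hPCS : Q_PCS) : Q_FIN := by
  intro n W L N hL hN hle hcong
  have hPM : PM W ≤ OLat L := by
    rintro g (hg | hg)
    · exact hle hg
    · have h1 := hle hg
      refine ⟨fun x y => ?_, fun x => ?_⟩
      · have := h1.1 x y
        simpa only [mul_ap, mi_ap, B_neg_left, B_neg_right, neg_neg] using this
      · have := h1.2 x
        rw [mul_ap, mi_ap, Submodule.neg_mem_iff] at this
        exact this
  have h1 : (PM W).relIndex (OLat L) ≠ 0 := by
    refine hPCS n L N (PM W) hL hN fun g hg hmod => ?_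
    obtain ⟨h, hh, hs⟩ := hcong g hg hmod
    rcases hs with hs | hs
    · left
      have : g = h := by ext1 x; exact (hs x).symm
      rw [this]; exact hh
    · right
      have : mi n * g = h := by
        ext1 x
        rw [mul_ap, mi_ap, hs]
      rw [this]; exact hh
  have h2 : W.relIndex (OLat L) ≠ 0 := by
    have h3 := Subgroup.relIndex_mul_relIndex W (PM W) (OLat L) (fun g hg => Or.inl hg) hPM
    rw [← h3]
    exact mul_ne_zero (relIndex_PM W) h1
  refine ⟨h2, ?_⟩
  rw [Subgroup.relIndex_eq_one.2 hle]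
  exact one_ne_zero

lemma csc_symm {L L' : Submodule ℤ (V n)} (h : Csc L L') : Csc L' L := by
  obtain ⟨t, D, ht, hD, h1, h2⟩ := h
  refine ⟨t⁻¹, D, inv_pos.2 ht, hD, fun x hx => ?_, fun x hx => ?_⟩
  · obtain ⟨y, hy, e⟩ := h2 x hx
    have h3 : ((D : ℝ) * t⁻¹) • x = y := by
      rw [mul_comm, ← smul_smul, e, smul_smul, inv_mul_cancel₀ ht.ne', one_smul]
    rw [h3]
    exact hy
  · refine ⟨_, h1 x hx, ?_⟩
    rw [smul_smul]
    congr 1
    field_simp

theorem csl_one (hPCS : Q_PCS) {L L' : Submodule ℤ (V n)} (hL : IsLat L)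
    (h : Csc L L') : (OLat L').relIndex (OLat L) ≠ 0 := by
  obtain ⟨t, D, ht, hD, h1, h2⟩ := csc_symm h
  refine hPCS n L (D ^ 2 * 1) (OLat L') hL (by positivity) fun g hg hmod => ?_
  have k1 := H39.key ht hD h1 h2 hmod
  have k2 := H39.key ht hD h1 h2 (H39.inv_mod hg hmod)
  have h1' : ((1 : ℕ) : ℝ) = 1 := by norm_num
  refine ⟨hg.1, fun x => ⟨fun hx => ?_, fun hx => ?_⟩⟩
  · obtain ⟨m, hm, e⟩ := k2 _ hx
    rw [inv_ap, h1', one_smul] at e
    have : x = g x + m := by rw [← e]; abel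
    rw [this]
    exact L'.add_mem hx hm
  · obtain ⟨m, hm, e⟩ := k1 _ hx
    rw [h1', one_smul] at e
    have : g x = x + m := by rw [← e]; abel
    rw [this]
    exact L'.add_mem hx hm

theorem q_csl (hPCS : Q_PCS) : Q_CSL := by
  intro n L L' hL hL' h
  exact ⟨csl_one hPCS hL' (csc_symm h), csl_one hPCS hL h⟩

end Pool.Agent.CN3.H2

end
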