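import Pool.Agent.Helper2_CN3.Stmts
import Pool.Agent.Helper94_CON.Iso

/-! # Module Q_TRV (squad CN3, MP_6d18f4_al) -/

set_option autoImplicit false

noncomputable section

namespace Pool.Agent.CN3.H2

open Pool.Agent.H25Cong Pool.Agent.CON Pool.Agent.CN2 Pool.Agent.CN3

theorem q_trv : Q_TRV := by
  intro n Γ Λ Λ' N hn hΛ hΛ' hN hcong hcom e he he0 hee
  obtain ⟨b, c, hc, hb, hspan⟩ := hΛ
  obtain ⟨b', -, -, -, hspan'⟩ := hΛ'
  obtain ⟨m, hm, hme, hmm⟩ := H94.exists_m hn hb hspan he he0 hee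
  have hc' : c ≠ 0 := ne_of_gt hc
  have hN' : (N : ℝ) ≠ 0 := by exact_mod_cast hN.ne'
  set t : ℝ := 2 * (N : ℝ) / c with ht
  have ht0 : t ≠ 0 := by rw [ht]; positivity
  have htm : B (t • m) e = 0 := by rw [B_smul_left, hme, mul_zero]
  have htm' : B (-(t • m)) e = 0 := by rw [B_neg_left, htm, neg_zero]
  have htm2 : B (t • (-m)) e = 0 := by rw [smul_neg]; exact htm'
  have hmem : ∀ x ∈ Λ, E e (t • m) hee htm x ∈ Λ := by
    intro x hx
    obtain ⟨y, hy, hxy⟩ := H94.E_one_mod hc hb hspan he hm hee N htm hx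
    rw [sub_eq_iff_eq_add.1 hxy]
    exact Λ.add_mem (Sn hy N) hx
  have hmem' : ∀ x ∈ Λ, (E e (t • m) hee htm)⁻¹ x ∈ Λ := by
    intro x hx
    rw [E_inv e (t • m) hee htm htm', E_congr rfl (smul_neg t m).symm hee htm' hee htm2]
    obtain ⟨y, hy, hxy⟩ := H94.E_one_mod hc hb hspan he (Λ.neg_mem hm) hee N htm2 hx
    rw [sub_eq_iff_eq_add.1 hxy]
    exact Λ.add_mem (Sn hy N) hx
  have hO : E e (t • m) hee htm ∈ OLat Λ := by
    refine ⟨E_isom _ _ _ _, fun x => ⟨fun hx => ?_, hmem x⟩⟩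
    have h := hmem' _ hx
    rwa [inv_ap] at h
  obtain ⟨h, hh, hsame⟩ := hcong _ hO fun x hx => H94.E_one_mod hc hb hspan he hm hee N htm hx
  have htt : B (t • m + t • m) e = 0 := by rw [B_add_left, htm, add_zero]
  have hsq : h * h = E e (t • m + t • m) hee htt := by
    rw [← E_mul e (t • m) (t • m) hee htm htm htt]
    ext1 x
    rw [mul_ap, mul_ap]
    rcases hsame with hs | hs
    · rw [hs, hs]
    · rw [hs, hs, map_neg, neg_neg]
  have hgΓ : h * h ∈ Γ := Γ.mul_mem hh hh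
  rw [hsq] at hgΓ
  obtain ⟨k, hk0, -, hk⟩ := Subgroup.exists_pow_mem_of_relIndex_ne_zero hcom.2 hgΓ
  have hk1 := hk.1
  have hkm : B ((k : ℝ) • (t • m + t • m)) e = 0 := by rw [B_smul_left, htt, mul_zero]
  rw [E_pow e _ hee htt k hkm] at hk1
  have hk2 := hk1.2
  set M := (k : ℝ) • (t • m + t • m) with hM
  set G := E e M hee hkm with hG
  obtain ⟨x, hx, hxe⟩ := H63.exists_ne hspan' he0
  have hMM : B M M ≠ 0 := by
    have h1 : B M M = (k : ℝ) ^ 2 * (4 * t ^ 2 * B m m) := by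
      rw [hM, B_smul_left, B_smul_right]
      simp only [B_add_left, B_add_right, B_smul_left, B_smul_right]
      ring
    rw [h1]
    have hk' : (k : ℝ) ≠ 0 := by exact_mod_cast hk0.ne'
    exact mul_ne_zero (pow_ne_zero 2 hk') (mul_ne_zero (mul_ne_zero (by norm_num)
      (pow_ne_zero 2 ht0)) hmm)
  refine ⟨-(B M M * B x e), neg_ne_zero.2 (mul_ne_zero hMM hxe), ?_⟩
  have e1 : G x ∈ Λ' := (hk2 x).2 hx
  have e2 : G (G x) ∈ Λ' := (hk2 _).2 e1
  have e3 : G (G x) - (G x + G x) + x ∈ Λ' :=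
    Λ'.add_mem (Λ'.sub_mem e2 (Λ'.add_mem e1 e1)) hx
  convert e3 using 1
  have hem : B e M = 0 := by rw [B_comm]; exact hkm
  rw [hG, E_apply, E_apply]
  simp only [B_add_left, B_sub_left, B_smul_left, B_smul_right, hee, hkm, hem]
  ext i
  simp only [Pi.add_apply, Pi.sub_apply, Pi.smul_apply, Pi.neg_apply, smul_eq_mul]
  ring

end Pool.Agent.CN3.H2

end
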