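import Pool.Agent.Helper2_CN3.Asm
import Pool.Agent.Helper2_CN3.Trv
import Pool.Agent.Helper2_CN3.Csc
import Pool.Agent.Helper2_CN3.Fin
import Pool.Agent.Helper39_CN3.Pcs
import Pool.Agent.Helper51_CN3.QDet
import Pool.Agent.Helper51_CN3.QOvr
import Pool.Agent.Helper63_CN3.Rk
import Pool.Agent.Helper63_CN3.Scl
import Pool.Agent.Helper63_CN3.Ex
import Pool.Agent.Helper65_CN3.One
import Pool.Agent.Helper97_CN3.Nb

/-!
Squad CN3, block 2: all the modules, discharged
-/

noncomputable section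

namespace Pool.Agent.CN3

open Pool.Agent.H25Cong Pool.Agent.CON Pool.Agent.CN2

/-- block 2 -/
theorem mods3 (ort : ORT) : Mods3 where
  fin := H2.q_fin H39.q_pcs
  csl := H2.q_csl H39.q_pcs
  nun := H39.q_nun
  trv := H2.q_trv
  csc := H2.q_csc
  nb := H97.q_nb
  rk := H63.q_rk
  scl := H63.q_scl
  one := H65.q_one
  ovr := H51.q_ovr
  det := H51.q_det
  ex := H63.q_ex
  ort := ort

end Pool.Agent.CN3

end
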