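import Pool.Agent.Helper2_CN3.Asm

/-! # The theorem of squad CN3 (MP_6d18f4_al, Q2) -/

set_option autoImplicit false

noncomputable section

namespace Pool.Agent.CN3

open Pool.Agent.H25Cong Pool.Agent.CON Pool.Agent.CN2

variable {n : ℕ}

/-- G is the group generated by the reflections which preserve a lattice of type U + l in the
Lorentzian space of dimension n + 1 -/
def IsRep (n : ℕ) (l : List (Ty × ℤ)) (G : Subgroup (V n ≃ₗ[ℝ] V n)) : Prop :=
  (l.map fun T => T.1.rk).sum + 1 = n ∧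
    ∃ a : Module.Basis (Fin (n + 1)) ℝ (V n), GramB a l ∧ G = RefL (Lsp a)

/-- G and G' are conjugate by an isometry -/
def IsConj' (G G' : Subgroup (V n ≃ₗ[ℝ] V n)) : Prop :=
  ∃ g : V n ≃ₗ[ℝ] V n, Isom g ∧ G' = G.map (MulAut.conj g).toMonoidHom

theorem gramB_map {l : List (Ty × ℤ)} {a : Module.Basis (Fin (n + 1)) ℝ (V n)} (ha : GramB a l)
    {g : V n ≃ₗ[ℝ] V n} (hg : Isom g) : GramB (a.map g) l := by
  intro i j
  rw [Module.Basis.map_apply, Module.Basis.map_apply, hg, ha]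

theorem refL_conj {l : List (Ty × ℤ)} {a : Module.Basis (Fin (n + 1)) ℝ (V n)} (ha : GramB a l)
    {g : V n ≃ₗ[ℝ] V n} (hg : Isom g) :
    RefL (Lsp (a.map g)) = (RefL (Lsp a)).map (MulAut.conj g).toMonoidHom := by
  obtain ⟨g', -, hga, h⟩ := main_conj ha (gramB_map ha hg)
  have : g' = g := by
    refine LinearEquiv.toLinearMap_injective (a.ext fun i => ?_)
    simpa using hga i
  rw [h, this]

/-- the complete answer -/
theorem final3 (m2 : Mods2) (m : Mods3) :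
    (∀ n : ℕ, 10 ≤ n → ∀ G : Subgroup (V n ≃ₗ[ℝ] V n),
      (MaxRefl G ∧ ¬ Uniform G ∧ IsCongruence G) ↔ ∃ l ∈ reps, IsRep n l G) ∧
    (∀ l ∈ reps, ∀ n : ℕ, (l.map fun T => T.1.rk).sum + 1 = n →
      ∃ G : Subgroup (V n ≃ₗ[ℝ] V n), IsRep n l G) ∧
    (∀ n : ℕ, 10 ≤ n → ∀ l ∈ reps, ∀ l' ∈ reps, ∀ G G' : Subgroup (V n ≃ₗ[ℝ] V n),
      IsRep n l G → IsRep n l' G' → (IsConj' G G' ↔ l = l')) := by
  refine ⟨fun n hn G => ?_, fun l hl n hs => ?_, fun n hn l hl l' hl' G G' hG hG' => ?_⟩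
  · rw [main_iff m2 m hn G]
    rfl
  · obtain ⟨a, ha⟩ := m.ex n l hl hs
    exact ⟨_, hs, a, ha, rfl⟩
  · obtain ⟨hs, a, ha, rfl⟩ := hG
    obtain ⟨hs', a', ha', rfl⟩ := hG'
    constructor
    · rintro ⟨g, hg, h⟩
      rw [← refL_conj ha hg] at h
      exact main_ne m2 m hn hl hl' hs hs' (gramB_map ha hg) ha' h.symm
    · rintro rfl
      obtain ⟨g, hg, -, h⟩ := main_conj ha ha'
      exact ⟨g, hg, h⟩

end Pool.Agent.CN3

end
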