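import Pool.Agent.Helper25_CN2.AsmFin

/-!
Squad CN3, block 2 (MP_6d18f4_al, Q2): the 13 reflection groups of `reps` are congruence
subgroups, not uniform, maximal, and pairwise not conjugate. Plan with complete proofs:
/team-store/PLAN_CN3_part2.md
-/

noncomputable section

namespace Pool.Agent.CN3

open Pool.Agent.H25Cong Pool.Agent.CON Pool.Agent.CN2

/-! ### finite index -/

/-- a group which contains a principal congruence subgroup has finite index -/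
def Q_FIN : Prop := ∀ (n : ℕ) (W : Subgroup (V n ≃ₗ[ℝ] V n)) (L : Submodule ℤ (V n)) (N : ℕ),
  IsLat L → 0 < N → W ≤ OLat L → CongSub L N W → Subgroup.Commensurable W (OLat L)

/-- the principal congruence subgroup has finite index -/
def Q_PCS : Prop := ∀ (n : ℕ) (L : Submodule ℤ (V n)) (N : ℕ) (H : Subgroup (V n ≃ₗ[ℝ] V n)),
  IsLat L → 0 < N → (∀ g ∈ OLat L, IsOneMod L N g → g ∈ H) → H.relIndex (OLat L) ≠ 0

/-- the groups of commensurable lattices are commensurable -/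
def Q_CSL : Prop := ∀ (n : ℕ) (L L' : Submodule ℤ (V n)), IsLat L → IsLat L' → Csc L L' →
  Subgroup.Commensurable (OLat L) (OLat L')

/-! ### not uniform -/

/-- Godement's criterion, the easy direction -/
def Q_NUN : Prop := ∀ (n : ℕ) (Γ : Subgroup (V n ≃ₗ[ℝ] V n)) (L : Submodule ℤ (V n)),
  IsLat L → Inv Γ L → (∀ g ∈ Γ, Isom g) → (∃ e ∈ L, e ≠ 0 ∧ B e e = 0) → ¬ Uniform Γ

/-! ### groups commensurable with another arithmetic group -/

/-- isotropic vectors of L are proportional to vectors of L' -/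
def Q_TRV : Prop := ∀ (n : ℕ) (Γ : Subgroup (V n ≃ₗ[ℝ] V n)) (L L' : Submodule ℤ (V n)) (N : ℕ),
  2 ≤ n → IsIntegralLattice L → IsIntegralLattice L' → 0 < N → CongSub L N Γ →
  Subgroup.Commensurable Γ (OLat L') →
  ∀ e ∈ L, e ≠ 0 → B e e = 0 → ∃ c : ℝ, c ≠ 0 ∧ c • e ∈ L'

/-- L and L' are commensurable up to scaling -/
def Q_CSC : Prop := ∀ (n : ℕ) (L L' : Submodule ℤ (V n)), 2 ≤ n → IsIntegralLattice L →
  IsIntegralLattice L' → (∃ e ∈ L, e ≠ 0 ∧ B e e = 0) →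
  (∀ e ∈ L, e ≠ 0 → B e e = 0 → ∃ c : ℝ, c ≠ 0 ∧ c • e ∈ L') → Csc L L'

/-! ### the lattice of the maximal group -/

/-- c 0, ..., c n are vectors of norm 2 of L which generate L, and their graph is connected -/
def NB {n : ℕ} (L : Submodule ℤ (V n)) (c : ℕ → V n) : Prop :=
  (∀ i < n + 1, c i ∈ L) ∧ (∀ x ∈ L, x ∈ AddSubgroup.closure (c '' {i | i < n + 1})) ∧
    (∀ i < n + 1, B (c i) (c i) = 2) ∧
    ∀ i < n + 1, 0 < i → ∃ j < i, B (c i) (c j) = 1 ∨ B (c i) (c j) = -1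

/-- L has generators of norm 2 -/
def Q_NB : Prop := ∀ (n : ℕ) (L : Submodule ℤ (V n)), ∀ l ∈ reps,
  (l.map fun T => T.1.rk).sum + 1 = n → GrL L (blk hyp (gr l)) → ∃ c, NB L c

/-- the rank of L modulo every prime is more than (n + 1) / 2 -/
def Q_RK : Prop := ∀ (n : ℕ) (L : Submodule ℤ (V n)), ∀ l ∈ reps,
  (l.map fun T => T.1.rk).sum + 1 = n → GrL L (blk hyp (gr l)) →
  ∃ k, n + 1 < 2 * k ∧ ∀ p : ℕ, p.Prime → Ind L p k

/-- the constant c -/
def Q_SCL : Prop := ∀ (n : ℕ) (L L' : Submodule ℤ (V n)) (r : ℕ → V n), 1 ≤ n → IsLat L →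
  EvenLat L' → NB L r → (∀ i < n + 1, ∀ x ∈ L', S (r i) x ∈ L') →
  ∃ (c : ℝ) (h : ℕ), 0 < c ∧ c ^ 2 = h ∧ (∀ x ∈ L, c • x ∈ L') ∧
    ∀ x ∈ L', ∀ y ∈ L, ∃ k : ℤ, B x y = c * k

/-- c = 1 -/
def Q_ONE : Prop := ∀ (n : ℕ) (L L' : Submodule ℤ (V n)) (c : ℝ) (h k k' : ℕ), EvenLat L →
  EvenLat L' → 0 < c → c ^ 2 = h → (∀ x ∈ L, c • x ∈ L') →
  (∀ x ∈ L', ∀ y ∈ L, ∃ k : ℤ, B x y = c * k) → (∀ p : ℕ, p.Prime → Ind L p k) →
  (∀ p : ℕ, p.Prime → Ind L' p k') → n + 1 < k + k' → c = 1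

/-- L has no even overlattice invariant under the reflections in its roots of norm 4 -/
def Q_OVR : Prop := ∀ (n : ℕ) (L L' : Submodule ℤ (V n)), ∀ l ∈ reps,
  (l.map fun T => T.1.rk).sum + 1 = n → GrL L (blk hyp (gr l)) → EvenLat L → EvenLat L' →
  L ≤ L' → (∀ x ∈ L', ∀ y ∈ L, ∃ k : ℤ, B x y = k) →
  (∀ r ∈ L, B r r = 4 → (∀ y ∈ L, ∃ k : ℤ, B r y = 2 * k) → ∀ x ∈ L', S r x ∈ L') → L' = L

/-! ### the 13 groups are different -/

/-- the Gram matrices of different lattices of the same rank are not equivalent -/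
def Q_DET : Prop := ∀ (n : ℕ) (L : Submodule ℤ (V n)), ∀ l ∈ reps, ∀ l' ∈ reps,
  (l.map fun T => T.1.rk).sum + 1 = n → (l'.map fun T => T.1.rk).sum + 1 = n →
  IsLat L → GrL L (blk hyp (gr l)) → GrL L (blk hyp (gr l')) → l = l'

/-! ### the hypothesis proved in block 1 -/

/-- block 1: the group generated by the reflections is a congruence subgroup -/
def ORT : Prop := ∀ (n : ℕ), ∀ l ∈ reps, (l.map fun T => T.1.rk).sum + 1 = n →
  ∀ a : Module.Basis (Fin (n + 1)) ℝ (V n), (∀ i j, B (a i) (a j) = ent (blk hyp (gr l)) i j) →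
  ∃ N : ℕ, 0 < N ∧ CongSub (Submodule.span ℤ (Set.range a)) N
    (RefL (Submodule.span ℤ (Set.range a)))

end Pool.Agent.CN3

end
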