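import Pool.Agent.Helper2_CN3.Stmts

/-!
Squad CN3, block 2: more module statements
-/

noncomputable section

namespace Pool.Agent.CN3

open Pool.Agent.H25Cong Pool.Agent.CON Pool.Agent.CN2

/-- the 13 lattices exist -/
def Q_EX : Prop := ∀ (n : ℕ), ∀ l ∈ reps, (l.map fun T => T.1.rk).sum + 1 = n →
  ∃ a : Module.Basis (Fin (n + 1)) ℝ (V n), ∀ i j, B (a i) (a j) = ent (blk hyp (gr l)) i j

end Pool.Agent.CN3

end
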