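import Pool.Agent.Helper2_CN3.Final

/-! # The classification in the form of a table -/

set_option autoImplicit false

noncomputable section

namespace Pool.Agent.CN3.Table

open Pool.Agent.H25Cong Pool.Agent.CON Pool.Agent.CN2 Pool.Agent.CN3

variable {n : ℕ}

/-- G is a reflective arithmetic lattice -/
def ReflectiveArithmetic (G : Subgroup (V n ≃ₗ[ℝ] V n)) : Prop :=
  GenByRefl G ∧ ∃ Λ : Submodule ℤ (V n), IsIntegralLattice Λ ∧ Subgroup.Commensurable G (OLat Λ)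

/-- G is a maximal reflective arithmetic lattice -/
def Maximal (G : Subgroup (V n ≃ₗ[ℝ] V n)) : Prop :=
  ReflectiveArithmetic G ∧ ∀ G', ReflectiveArithmetic G' → G ≤ G' → G' = G

/-- the table of the 13 lattices -/
def table : List (ℕ × List (Ty × ℤ)) :=
  [(10, [(.E 8, 1), (.A 1, 1)]), (10, [(.E 8, 1), (.A 1, 2)]), (10, [(.E 8, 1), (.A 1, 3)]),
   (10, [(.E 7, 1), (.A 1, 1), (.A 1, 1)]), (10, [(.D 5, 1), (.D 4, 1)]),
   (10, [(.D 4, 1), (.D 4, 1), (.A 1, 1)]),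
   (11, [(.E 8, 1), (.A 2, 1)]), (11, [(.E 8, 1), (.A 1, 1), (.A 1, 1)]),
   (11, [(.E 8, 1), (.A 1, 1), (.A 1, 2)]), (11, [(.D 6, 1), (.D 4, 1)]),
   (12, [(.E 8, 1), (.A 3, 1)]), (12, [(.E 8, 1), (.A 1, 1), (.A 1, 1), (.A 1, 1)]),
   (13, [(.E 8, 1), (.D 4, 1)])]

/-- G is the reflection group of the lattice U + l -/
def IsGroupOf (n : ℕ) (l : List (Ty × ℤ)) (G : Subgroup (V n ≃ₗ[ℝ] V n)) : Prop :=
  ∃ a : Module.Basis (Fin (n + 1)) ℝ (V n),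
    (∀ i j, B (a i) (a j) = ent (blk hyp (gr l)) i j) ∧
      G = Subgroup.closure {g | IsReflection g ∧
        ∀ x ∈ Submodule.span ℤ (Set.range a), g x ∈ Submodule.span ℤ (Set.range a)}

/-- G and G' are conjugate in the isometry group of hyperbolic space -/
def Conjugate (G G' : Subgroup (V n ≃ₗ[ℝ] V n)) : Prop :=
  ∃ g : V n ≃ₗ[ℝ] V n, (∀ x y, B (g x) (g y) = B x y) ∧
    ∀ h, h ∈ G' ↔ ∃ k ∈ G, ∀ x, h (g x) = g (k x)

theorem conjugate_iff (G G' : Subgroup (V n ≃ₗ[ℝ] V n)) : Conjugate G G' ↔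
    ∃ g : V n ≃ₗ[ℝ] V n, (∀ x y, B (g x) (g y) = B x y) ∧
      G' = G.map (MulAut.conj g).toMonoidHom := by
  have key : ∀ g h k : V n ≃ₗ[ℝ] V n, (∀ x, h (g x) = g (k x)) ↔ g * k * g⁻¹ = h := by
    intro g h k
    rw [mul_inv_eq_iff_eq_mul]
    constructor
    · intro H
      ext1 x
      rw [LinearEquiv.mul_apply, LinearEquiv.mul_apply]
      exact (H x).symm
    · intro H x
      have := LinearEquiv.congr_fun H x
      rw [LinearEquiv.mul_apply, LinearEquiv.mul_apply] at this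
      exact this.symm
  constructor
  · rintro ⟨g, hg, H⟩
    refine ⟨g, hg, ?_⟩
    ext1 h
    rw [H h, Subgroup.mem_map]
    constructor
    · rintro ⟨k, hk, hx⟩
      exact ⟨k, hk, (key g h k).1 hx⟩
    · rintro ⟨k, hk, hx⟩
      exact ⟨k, hk, (key g h k).2 hx⟩
  · rintro ⟨g, hg, rfl⟩
    refine ⟨g, hg, fun h => ?_⟩
    rw [Subgroup.mem_map]
    constructor
    · rintro ⟨k, hk, hx⟩
      exact ⟨k, hk, (key g h k).2 hx⟩
    · rintro ⟨k, hk, hx⟩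
      exact ⟨k, hk, (key g h k).1 hx⟩

theorem table_iff (n : ℕ) (l : List (Ty × ℤ)) :
    (n, l) ∈ table ↔ l ∈ reps ∧ (l.map fun T => T.1.rk).sum + 1 = n := by
  constructor
  · intro h
    simp only [table, List.mem_cons, Prod.mk.injEq, List.not_mem_nil, or_false] at h
    rcases h with ⟨rfl, rfl⟩ | ⟨rfl, rfl⟩ | ⟨rfl, rfl⟩ | ⟨rfl, rfl⟩ | ⟨rfl, rfl⟩ | ⟨rfl, rfl⟩ |
      ⟨rfl, rfl⟩ | ⟨rfl, rfl⟩ | ⟨rfl, rfl⟩ | ⟨rfl, rfl⟩ | ⟨rfl, rfl⟩ | ⟨rfl, rfl⟩ | ⟨rfl, rfl⟩ <;>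
      decide
  · rintro ⟨h, rfl⟩
    have key : ∀ l ∈ reps, ((l.map fun T => T.1.rk).sum + 1, l) ∈ table := by decide
    exact key l h

theorem isGroupOf_iff {l : List (Ty × ℤ)} (h : (l.map fun T => T.1.rk).sum + 1 = n)
    (G : Subgroup (V n ≃ₗ[ℝ] V n)) : IsGroupOf n l G ↔ IsRep n l G := by
  constructor
  · rintro ⟨a, ha, hG⟩
    exact ⟨h, a, ha, hG⟩
  · rintro ⟨-, a, ha, hG⟩
    exact ⟨a, ha, hG⟩

theorem ten_le {l : List (Ty × ℤ)} (h : (n, l) ∈ table) : 10 ≤ n := by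
  simp only [table, List.mem_cons, Prod.mk.injEq, List.not_mem_nil, or_false] at h
  omega

/-- the classification in the form of a table -/
theorem main (m2 : Mods2) (m : Mods3) :
    (∀ n : ℕ, 10 ≤ n → ∀ G : Subgroup (V n ≃ₗ[ℝ] V n),
      (Maximal G ∧ ¬ Uniform G ∧ IsCongruence G) ↔ ∃ l, (n, l) ∈ table ∧ IsGroupOf n l G) ∧
    (∀ n l, (n, l) ∈ table → ∃ G : Subgroup (V n ≃ₗ[ℝ] V n), IsGroupOf n l G) ∧
    (∀ n l l', (n, l) ∈ table → (n, l') ∈ table → ∀ G G' : Subgroup (V n ≃ₗ[ℝ] V n),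
      IsGroupOf n l G → IsGroupOf n l' G' → (Conjugate G G' ↔ l = l')) := by
  obtain ⟨h1, h2, h3⟩ := final3 m2 m
  refine ⟨fun n hn G => ?_, fun n l hl => ?_, fun n l l' hl hl' G G' hG hG' => ?_⟩
  · have h := h1 n hn G
    refine Iff.trans (show _ ↔ (MaxRefl G ∧ ¬ Uniform G ∧ IsCongruence G) from Iff.rfl)
      (h.trans ?_)
    constructor
    · rintro ⟨l, hl, hG⟩
      exact ⟨l, (table_iff n l).2 ⟨hl, hG.1⟩, (isGroupOf_iff hG.1 G).2 hG⟩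
    · rintro ⟨l, hl, hG⟩
      obtain ⟨hl, hs⟩ := (table_iff n l).1 hl
      exact ⟨l, hl, (isGroupOf_iff hs G).1 hG⟩
  · obtain ⟨hl, hs⟩ := (table_iff n l).1 hl
    obtain ⟨G, hG⟩ := h2 l hl n hs
    exact ⟨G, (isGroupOf_iff hs G).2 hG⟩
  · have hn := ten_le hl
    obtain ⟨hl, hs⟩ := (table_iff n l).1 hl
    obtain ⟨hl', hs'⟩ := (table_iff n l').1 hl'
    rw [conjugate_iff]
    exact h3 n hn l hl l' hl' G G' ((isGroupOf_iff hs G).1 hG) ((isGroupOf_iff hs' G').1 hG')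

end Pool.Agent.CN3.Table

end
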